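import Pool.Agent.Q185.NP.Stm

/-!
# Project NP, job A3: nilpotency of the group `Qs`
-/

set_option autoImplicit false

namespace Pool.Agent.Q114.NP

open Q70.Nil Pool.Agent.Q185.NP Polynomial
open scoped commutatorElement

variable {d : ℕ}

/-! ## Forward differences -/

theorem fwd_map {B C : Type} [AddCommGroup B] [AddCommGroup C] (φ : B →+ C) (f : ℤ → B) (n : ℕ) :
    (fwdDiff (1 : ℤ))^[n] (fun t => φ (f t)) = fun t => φ ((fwdDiff (1 : ℤ))^[n] f t) := by
  induction n with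
  | zero => rfl
  | succ n ih =>
    rw [Function.iterate_succ_apply', Function.iterate_succ_apply', ih]
    funext t
    simp only [fwdDiff, map_sub]

theorem fwd_cast (F : ℚ → ℚ) (n : ℕ) :
    (fwdDiff (1 : ℤ))^[n] (fun t : ℤ => F (t : ℚ)) =
      fun t : ℤ => (fwdDiff (1 : ℚ))^[n] F (t : ℚ) := by
  induction n with
  | zero => rfl
  | succ n ih =>
    rw [Function.iterate_succ_apply', Function.iterate_succ_apply', ih]
    funext t
    simp only [fwdDiff, Int.cast_add, Int.cast_one]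

theorem fwd_poly (f : ℤ → ℤ) (P : ℚ[X]) (h : ∀ t : ℤ, ((f t : ℤ) : ℚ) = P.eval (t : ℚ)) (n : ℕ)
    (hn : P.natDegree < n) : (fwdDiff (1 : ℤ))^[n] f = 0 := by
  have h1 := fwd_map (Int.castAddHom ℚ) f n
  have h2 : (fun t => (Int.castAddHom ℚ) (f t)) = fun t : ℤ => P.eval (t : ℚ) := by
    funext t
    simpa using h t
  rw [h2, fwd_cast (fun x => P.eval x) n] at h1
  have h3 : (fwdDiff (1 : ℚ))^[n] (fun x => P.eval x) = 0 :=
    Polynomial.fwdDiff_iter_eq_zero_of_degree_lt hn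
  rw [h3] at h1
  funext t
  have h4 := congrFun h1 t
  simp only [Pi.zero_apply, Int.coe_castAddHom] at h4
  simpa using h4.symm

/-! ## The operator `q ↦ q ∘ sh 1 - q` -/

/-- the difference operator `a ↦ q (sh 1 a) - q a` -/
def Dl {B : Type} [AddCommGroup B] : (Ix d → B) →+ (Ix d → B) where
  toFun q := fun a => q (sh 1 a) - q a
  map_zero' := by funext a; simp
  map_add' f g := by funext a; simp only [Pi.add_apply]; abel

theorem Dl_apply {B : Type} [AddCommGroup B] (q : Ix d → B) (a : Ix d) :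
    Dl q a = q (sh 1 a) - q a := rfl

theorem Dl_iter_shift {B : Type} [AddCommGroup B] (q : Ix d → B) (a : Ix d) (n : ℕ) :
    (fwdDiff (1 : ℤ))^[n] (fun t : ℤ => q (sh t a)) = fun t => (Dl^[n] q) (sh t a) := by
  induction n with
  | zero => rfl
  | succ n ih =>
    rw [Function.iterate_succ_apply', Function.iterate_succ_apply', ih]
    funext t
    simp only [fwdDiff, Dl_apply, sh_sh]

theorem Dl_iter_comp {B : Type} [AddCommGroup B] (q : Ix d → B) (m : ℤ) (n : ℕ) :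
    Dl^[n] (fun a => q (sh m a)) = fun a => (Dl^[n] q) (sh m a) := by
  induction n with
  | zero => rfl
  | succ n ih =>
    rw [Function.iterate_succ_apply', Function.iterate_succ_apply', ih]
    funext a
    simp only [Dl_apply, sh_sh, add_comm]

/-- a map killed by `Dl` is invariant under all shifts -/
theorem Dl_inv {B : Type} [AddCommGroup B] {q : Ix d → B} (h : Dl q = 0) (m : ℤ) (a : Ix d) :
    q (sh m a) = q a := by
  have h1 : ∀ b, q (sh 1 b) = q b := fun b => by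
    have := congrFun h b
    rwa [Dl_apply, Pi.zero_apply, sub_eq_zero] at this
  have hnat : ∀ (n : ℕ) (b : Ix d), q (sh n b) = q b := by
    intro n
    induction n with
    | zero => intro b; rw [Nat.cast_zero, sh_zero_left]
    | succ n ih => intro b; rw [Nat.cast_succ, ← sh_sh, h1, ih]
  obtain ⟨n, rfl | rfl⟩ := m.eq_nat_or_neg
  · exact hnat n a
  · have := hnat n (sh (-n) a)
    rw [sh_sh, neg_add_cancel, sh_zero_left] at this
    exact this.symm

/-! ## The binomials along the shifts are polynomials -/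

theorem coord_poly (a : Ix d) (e : Fin (d + 1)) :
    ∃ P : ℚ[X], P.natDegree ≤ d ∧ ∀ t : ℤ, ((sh t a e : ℤ) : ℚ) = P.eval (t : ℚ) := by
  refine ⟨∑ f : Fin (d + 1), C (((a f * ((f.val + 1).choose (e.val + 1) : ℤ) : ℤ)) : ℚ) *
    X ^ (f.val - e.val), ?_, fun t => ?_⟩
  · refine Polynomial.natDegree_sum_le_of_forall_le _ _ fun f _ => ?_
    refine (Polynomial.natDegree_C_mul_X_pow_le _ _).trans ?_
    have := f.isLt
    omega
  · simp only [sh, Polynomial.eval_finsetSum, Polynomial.eval_mul, Polynomial.eval_C,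
      Polynomial.eval_pow, Polynomial.eval_X, Int.cast_sum, Int.cast_mul, Int.cast_pow,
      Int.cast_natCast]

theorem choose_poly (f : ℤ → ℤ) (P : ℚ[X]) (D : ℕ) (hD : P.natDegree ≤ D)
    (h : ∀ t : ℤ, ((f t : ℤ) : ℚ) = P.eval (t : ℚ)) (r : ℕ) :
    ∃ Q : ℚ[X], Q.natDegree ≤ r * D ∧ ∀ t : ℤ, ((Ring.choose (f t) r : ℤ) : ℚ) = Q.eval (t : ℚ) := by
  refine ⟨C ((r.factorial : ℚ)⁻¹) * (descPochhammer ℚ r).comp P, ?_, fun t => ?_⟩
  · refine (Polynomial.natDegree_C_mul_le _ _).trans ?_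
    refine Polynomial.natDegree_comp_le.trans ?_
    rw [descPochhammer_natDegree]
    exact Nat.mul_le_mul_left _ hD
  · have h1 := Ring.descPochhammer_eq_factorial_smul_choose (f t) r
    rw [← Polynomial.eval_eq_smeval, nsmul_eq_mul] at h1
    have h2 : (((descPochhammer ℤ r).eval (f t) : ℤ) : ℚ) =
        (descPochhammer ℚ r).eval ((f t : ℤ) : ℚ) := by
      rw [← descPochhammer_map (Int.castRingHom ℚ), Polynomial.eval_intCast_map]
      rfl
    have h3 : (r.factorial : ℚ) ≠ 0 := by exact_mod_cast r.factorial_ne_zero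
    rw [Polynomial.eval_mul, Polynomial.eval_C, Polynomial.eval_comp, ← h t, ← h2, h1]
    push_cast
    field_simp

theorem bi_poly (a : Ix d) (α : Fin (d + 1) → ℕ) :
    ∃ Q : ℚ[X], Q.natDegree ≤ (∑ e, α e) * d ∧
      ∀ t : ℤ, ((bi (sh t a) α : ℤ) : ℚ) = Q.eval (t : ℚ) := by
  have h1 : ∀ e : Fin (d + 1), ∃ Q : ℚ[X], Q.natDegree ≤ α e * d ∧
      ∀ t : ℤ, ((Ring.choose (sh t a e) (α e) : ℤ) : ℚ) = Q.eval (t : ℚ) := by
    intro e
    obtain ⟨P, hP, hP'⟩ := coord_poly a e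
    exact choose_poly (fun t => sh t a e) P d hP hP' (α e)
  choose Q hQ hQ' using h1
  refine ⟨∏ e, Q e, ?_, fun t => ?_⟩
  · refine (Polynomial.natDegree_prod_le _ _).trans ?_
    rw [Finset.sum_mul]
    exact Finset.sum_le_sum fun e _ => hQ e
  · rw [bi, Polynomial.eval_prod, Int.cast_prod]
    exact Finset.prod_congr rfl fun e _ => hQ' e t

/-- maps of degree at most `n` are killed by a power of `Dl` -/
theorem Dl_kill (hT : S_TY) (d n : ℕ) : ∀ (B : Type) [AddCommGroup B] (q : Ix d → B), DG n q →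
    Dl^[n * d + 1] q = 0 := by
  intro B _ q hq
  obtain ⟨b, hb⟩ := (hT d n).2 B q hq
  funext a
  have h1 := congrFun (Dl_iter_shift q a (n * d + 1)) 0
  simp only [sh_zero_left] at h1
  rw [← h1, Pi.zero_apply]
  have h2 : (fun t : ℤ => q (sh t a)) = ∑ α ∈ ex d n, fun t : ℤ => bi (sh t a) α • b α := by
    funext t
    rw [hb, Finset.sum_apply]
  rw [h2, fwdDiff_iter_finsetSum, Finset.sum_apply]
  refine Finset.sum_eq_zero fun α hα => ?_
  have h3 := fwd_map (zmultiplesHom B (b α)) (fun t => bi (sh t a) α) (n * d + 1)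
  simp only [zmultiplesHom_apply] at h3
  rw [h3]
  obtain ⟨Q, hQ, hQ'⟩ := bi_poly a α
  have h4 : ∑ e, α e ≤ n := (Finset.mem_filter.1 hα).2
  rw [fwd_poly (fun t => bi (sh t a) α) Q hQ' (n * d + 1)
    (Nat.lt_succ_of_le (hQ.trans (Nat.mul_le_mul_right _ h4)))]
  simp

/-! ## The central series -/

section series

variable {G : Type} [Group G]

/-- polynomial elements with shift `0`, values in `L_i` and class killed by the `r`-th power of `Dl` -/
def VV (hA : S_A1) (d : ℕ) (G : Type) [Group G] (i r : ℕ) : Subgroup (QG d G) where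
  carrier := {p | p.sf = 0 ∧ Pl p.fn ∧ (∀ a, p.fn a ∈ L G i) ∧
    Dl^[r] (fun a => grm i (p.fn a)) = 0}
  mul_mem' := by
    rintro p q ⟨hp1, hp2, hp3, hp4⟩ ⟨hq1, hq2, hq3, hq4⟩
    have h0 : ∀ a, (p * q).fn a = p.fn a * q.fn a := fun a => by
      rw [mul_fn, hp1, sh_zero_left]
    refine ⟨by rw [mul_sf, hp1, hq1, add_zero], ?_, fun a => ?_, ?_⟩
    · have h1 := (hA G d).1 p.fn q.fn hp2 hq2
      have h2 : (p * q).fn = fun a => p.fn a * q.fn a := funext h0
      rw [h2]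
      exact h1
    · rw [h0]
      exact mul_mem (hp3 a) (hq3 a)
    · have h2 : (fun a => grm i ((p * q).fn a)) =
          (fun a => grm i (p.fn a)) + fun a => grm i (q.fn a) := by
        funext a
        rw [h0, grm_mul (hp3 a) (hq3 a)]
        rfl
      rw [h2, iterate_map_add, hp4, hq4, add_zero]
  one_mem' := by
    refine ⟨rfl, (hA G d).2.2.2 1, fun a => one_mem _, ?_⟩
    have h2 : (fun a => grm i ((1 : QG d G).fn a)) = 0 := by
      funext a
      rw [one_fn, grm_one]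
      rfl
    rw [h2, iterate_map_zero]
  inv_mem' := by
    rintro p ⟨hp1, hp2, hp3, hp4⟩
    have h0 : ∀ a, (p⁻¹).fn a = (p.fn a)⁻¹ := fun a => by
      rw [inv_fn, hp1, neg_zero, sh_zero_left]
    refine ⟨by rw [inv_sf, hp1, neg_zero], ?_, fun a => ?_, ?_⟩
    · have h1 := (hA G d).2.1 p.fn hp2
      have h2 : (p⁻¹).fn = fun a => (p.fn a)⁻¹ := funext h0
      rw [h2]
      exact h1
    · rw [h0]
      exact inv_mem (hp3 a)
    · have h2 : (fun a => grm i ((p⁻¹).fn a)) = - fun a => grm i (p.fn a) := by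
        funext a
        rw [h0, grm_inv (hp3 a)]
        rfl
      rw [h2, iterate_map_neg, hp4, neg_zero]

theorem mem_VV (hA : S_A1) {i r : ℕ} {p : QG d G} : p ∈ VV hA d G i r ↔
    (p.sf = 0 ∧ Pl p.fn ∧ (∀ a, p.fn a ∈ L G i) ∧ Dl^[r] (fun a => grm i (p.fn a)) = 0) :=
  Iff.rfl

theorem comm_fn {p q : QG d G} (hp : p.sf = 0) (a : Ix d) :
    (⁅p, q⁆).fn a = p.fn a * q.fn a * (p.fn (sh q.sf a))⁻¹ * (q.fn a)⁻¹ := by
  rw [commutatorElement_def]
  simp only [mul_fn, mul_sf, inv_fn, inv_sf, hp, sh_sh, neg_zero, add_zero, zero_add,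
    sh_zero_left, add_neg_cancel]

theorem comm_sf (p q : QG d G) : (⁅p, q⁆).sf = 0 := by
  rw [commutatorElement_def]
  simp only [mul_sf, inv_sf]
  ring

theorem comm_VV (hA : S_A1) {i r : ℕ} {p q : QG d G} (hp : p ∈ VV hA d G i (r + 1))
    (hq : q ∈ Qs d G) : ⁅p, q⁆ ∈ VV hA d G i r := by
  obtain ⟨hp1, hp2, hp3, hp4⟩ := hp
  have hpQ : p ∈ Qs d G := (mem_Qs hA p).2 hp2
  have hcQ : ⁅p, q⁆ ∈ Qs d G := by
    rw [commutatorElement_def]
    exact mul_mem (mul_mem (mul_mem hpQ hq) (inv_mem hpQ)) (inv_mem hq)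
  have h0 := fun a => comm_fn (q := q) hp1 a
  have h1 : ∀ a, (⁅p, q⁆).fn a =
      p.fn a * (q.fn a * (p.fn (sh q.sf a))⁻¹ * (q.fn a)⁻¹) := fun a => by
    rw [h0]
    group
  have h2 : ∀ a, q.fn a * (p.fn (sh q.sf a))⁻¹ * (q.fn a)⁻¹ ∈ L G i := fun a =>
    L_conj (inv_mem (hp3 _)) _
  have h3 : ∀ a, grm i (q.fn a * (p.fn (sh q.sf a))⁻¹ * (q.fn a)⁻¹) =
      - grm i (p.fn (sh q.sf a)) := fun a => by
    rw [← grm_inv (hp3 _)]
    refine (grm_eq_iff (h2 a) (inv_mem (hp3 _))).2 ?_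
    have := comm_mem' (inv_mem (hp3 (sh q.sf a))) (q.fn a)
    rwa [commutatorElement_def] at this
  refine ⟨comm_sf p q, (mem_Qs hA _).1 hcQ, fun a => ?_, ?_⟩
  · rw [h1]
    exact mul_mem (hp3 a) (h2 a)
  · have h4 : (fun a => grm i ((⁅p, q⁆).fn a)) =
        (fun a => grm i (p.fn a)) - fun a => grm i (p.fn (sh q.sf a)) := by
      funext a
      rw [h1, grm_mul (hp3 a) (h2 a), h3, ← sub_eq_add_neg]
      rfl
    rw [h4, iterate_map_sub, Dl_iter_comp (fun a => grm i (p.fn a)) q.sf r]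
    rw [Function.iterate_succ_apply'] at hp4
    funext a
    rw [Pi.sub_apply, Dl_inv hp4, sub_self]
    rfl

theorem VV_zero (hA : S_A1) (hT : S_TY) (hB : S_BR) {i : ℕ} {p : QG d G}
    (hp : p ∈ VV hA d G i 0) : p ∈ VV hA d G (i + 1) ((i + 2) * d + 1) := by
  obtain ⟨hp1, hp2, hp3, hp4⟩ := hp
  have h1 : ∀ a, p.fn a ∈ L G (i + 1) := fun a => by
    have := congrFun hp4 a
    exact (grm_eq_zero (hp3 a)).1 this
  exact ⟨hp1, hp2, h1, Dl_kill hT d (i + 2) _ _ (hB G d (i + 1) p.fn hp2 h1)⟩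

theorem base_VV (hA : S_A1) (hT : S_TY) (hB : S_BR) {p q : QG d G} (hp : p ∈ Qs d G)
    (hq : q ∈ Qs d G) : ⁅p, q⁆ ∈ VV hA d G 0 (1 * d + 1) := by
  have hcQ : ⁅p, q⁆ ∈ Qs d G := by
    rw [commutatorElement_def]
    exact mul_mem (mul_mem (mul_mem hp hq) (inv_mem hp)) (inv_mem hq)
  have h2 := (mem_Qs hA _).1 hcQ
  have h3 : ∀ a, (⁅p, q⁆).fn a ∈ L G 0 := fun a => L_zero_mem _
  exact ⟨comm_sf p q, h2, h3, Dl_kill hT d 1 _ _ (hB G d 0 _ h2 h3)⟩

theorem lcs_VV (hA : S_A1) (hT : S_TY) (hB : S_BR) (i : ℕ) :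
    ∃ k, (Qs d G).lowerCentralSeries k ≤ VV hA d G i ((i + 1) * d + 1) := by
  induction i with
  | zero =>
    refine ⟨1, ?_⟩
    rw [Subgroup.lowerCentralSeries_succ, Subgroup.lowerCentralSeries_zero, Subgroup.commutator_le]
    intro p hp q hq
    exact base_VV hA hT hB hp hq
  | succ i ih =>
    obtain ⟨k, hk⟩ := ih
    have h1 : ∀ j r, j + r = (i + 1) * d + 1 →
        (Qs d G).lowerCentralSeries (k + j) ≤ VV hA d G i r := by
      intro j
      induction j with
      | zero =>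
        intro r hr
        rw [zero_add] at hr
        rw [hr]
        exact hk
      | succ j ihj =>
        intro r hr
        rw [← add_assoc, Subgroup.lowerCentralSeries_succ, Subgroup.commutator_le]
        intro p hp q hq
        exact comm_VV hA (ihj (r + 1) (by omega) hp) hq
    refine ⟨k + ((i + 1) * d + 1), fun p hp => ?_⟩
    exact VV_zero hA hT hB (h1 _ 0 (by omega) hp)

end series

/-- **A3 (nilpotency of `Qs`)** -/
theorem a3 (hA : S_A1) (hT : S_TY) (hB : S_BR) : S_A3 := by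
  intro G _ d hG
  obtain ⟨c, hc⟩ := Subgroup.nilpotent_iff_lowerCentralSeries.1 hG
  obtain ⟨k, hk⟩ := lcs_VV (d := d) (G := G) hA hT hB c
  rw [Subgroup.isNilpotent_iff_lowerCentralSeries]
  refine ⟨k, ?_⟩
  rw [eq_bot_iff]
  intro p hp
  obtain ⟨h1, -, h3, -⟩ := hk hp
  rw [Subgroup.mem_bot]
  ext a
  · have := h3 a
    rw [L, hc, Subgroup.mem_bot] at this
    exact this
  · exact h1

end Pool.Agent.Q114.NP
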