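import Pool.Agent.Q185.NP.Stm

/-!
# Project NP, job A4: compactness of `Qs / Λ`
-/

set_option autoImplicit false

namespace Pool.Agent.Q114.NP

open Q70.Nil Pool.Agent.Q185.NP Set
open scoped commutatorElement Pointwise

variable {d : ℕ} {G : Type} [Group G]

/-- products of powers with binomial exponents, in a fixed order -/
noncomputable def PR (l : List (Fin (d + 1) → ℕ)) (c : (Fin (d + 1) → ℕ) → G) : Ix d → G :=
  fun a => (l.map fun α => c α ^ bi a α).prod

theorem PR_pl (hA : S_A1) (hP : S_POW) (hT : S_TY) (i : ℕ) (c : (Fin (d + 1) → ℕ) → G)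
    (hc : ∀ α, c α ∈ L G i) (l : List (Fin (d + 1) → ℕ)) (hl : ∀ α ∈ l, α ∈ ex d (i + 1)) :
    Pl (PR l c) := by
  induction l with
  | nil => exact (hA G d).2.2.2 1
  | cons α l ih =>
    have h1 : PR (α :: l) c = fun a => c α ^ bi a α * PR l c a := by
      funext a
      simp only [PR, List.map_cons, List.prod_cons]
    rw [h1]
    refine (hA G d).1 _ _ ?_ (ih fun β hβ => hl β (List.mem_cons_of_mem _ hβ))
    exact hP G d i (c α) (hc α) _ ((hT d (i + 1)).1 α (hl α List.mem_cons_self))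

theorem PR_mem {H : Subgroup G} (c : (Fin (d + 1) → ℕ) → G) (hc : ∀ α, c α ∈ H)
    (l : List (Fin (d + 1) → ℕ)) (a : Ix d) : PR l c a ∈ H := by
  refine Subgroup.list_prod_mem _ fun x hx => ?_
  obtain ⟨α, -, rfl⟩ := List.mem_map.1 hx
  exact zpow_mem (hc α) _

theorem PR_grm (i : ℕ) (c : (Fin (d + 1) → ℕ) → G) (hc : ∀ α, c α ∈ L G i)
    (l : List (Fin (d + 1) → ℕ)) (a : Ix d) :
    grm i (PR l c a) = (l.map fun α => bi a α • grm i (c α)).sum := by
  induction l with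
  | nil => simpa [PR] using grm_one (G := G) i
  | cons α l ih =>
    have h1 : PR (α :: l) c a = c α ^ bi a α * PR l c a := by
      simp only [PR, List.map_cons, List.prod_cons]
    rw [h1, grm_mul (zpow_mem (hc α) _) (PR_mem c hc l a), ih, grm_zpow (hc α), List.map_cons,
      List.sum_cons]

/-- the factorisation property -/
def Fac [TopologicalSpace G] (d : ℕ) (Γ : Subgroup G) (i : ℕ) : Prop :=
  ∃ K : Set (Ix d → G), IsCompact K ∧ (∀ κ ∈ K, Pl κ) ∧ ∀ h : Ix d → G, Pl h →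
    ∃ κ ∈ K, ∃ h' γ : Ix d → G, Pl h' ∧ (∀ a, h' a ∈ L G i) ∧ (∀ a, γ a ∈ Γ) ∧
      ∀ a, h a = κ a * h' a * γ a

theorem fac_zero (hA : S_A1) [TopologicalSpace G] (d : ℕ) (Γ : Subgroup G) : Fac d Γ 0 := by
  refine ⟨{fun _ => 1}, isCompact_singleton, ?_, ?_⟩
  · rintro κ rfl
    exact (hA G d).2.2.2 1
  · intro h hh
    exact ⟨_, rfl, h, fun _ => 1, hh, fun a => L_zero_mem _, fun a => one_mem _, fun a => by
      rw [one_mul, mul_one]⟩

theorem fac_succ (hA : S_A1) (hP : S_POW) (hT : S_TY) (hB : S_BR) [TopologicalSpace G]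
    [IsTopologicalGroup G] (d : ℕ) (Γ : Subgroup G) (i : ℕ) (hC : Coc Γ i) (h : Fac d Γ i) :
    Fac d Γ (i + 1) := by
  obtain ⟨K, hK, hKp, hKf⟩ := h
  obtain ⟨C, hC1, hC2, hC3⟩ := hC
  set l := (ex d (i + 1)).toList with hl
  have hlm : ∀ α ∈ l, α ∈ ex d (i + 1) := fun α hα => Finset.mem_toList.1 hα
  let K' : Set (Ix d → G) := (fun c : (Fin (d + 1) → ℕ) → G => PR l c) '' (Set.univ.pi fun _ => C)
  have hK' : IsCompact K' := by
    refine (isCompact_univ_pi fun _ => hC1).image ?_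
    refine continuous_pi fun a => ?_
    exact continuous_list_prod l fun α _ => (continuous_apply α).zpow _
  refine ⟨K * K', hK.mul hK', ?_, ?_⟩
  · rintro _ ⟨κ, hκ, _, ⟨c, hc, rfl⟩, rfl⟩
    exact (hA G d).1 _ _ (hKp κ hκ) (PR_pl hA hP hT i c (fun α => hC2 (hc α (Set.mem_univ _))) l hlm)
  · intro h hh
    obtain ⟨κ, hκ, h', γ, hh'1, hh'2, hγ, hfac⟩ := hKf h hh
    obtain ⟨b, hb⟩ := (hT d (i + 1)).2 _ _ (hB G d i h' hh'1 hh'2)
    choose u hu1 hu2 using fun α => grm_surj (b α)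
    choose c hc g hg1 hg2 hu3 using fun α => hC3 (u α) (hu1 α)
    have hcL : ∀ α, c α ∈ L G i := fun α => hC2 (hc α)
    have hbc : ∀ α, b α = grm i (c α) + grm i (g α) := fun α => by
      rw [← hu2 α, hu3 α, grm_mul (hcL α) (hg2 α)]
    have hq : ∀ a, grm i (h' a) = grm i (PR l c a) + grm i (PR l g a) := by
      intro a
      rw [hb a, PR_grm i c hcL, PR_grm i g hg2, Finset.sum_map_toList, Finset.sum_map_toList,
        ← Finset.sum_add_distrib]
      exact Finset.sum_congr rfl fun α _ => by rw [hbc α, smul_add]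
    have hpc := PR_pl hA hP hT i c hcL l hlm
    have hpg := PR_pl hA hP hT i g hg2 l hlm
    refine ⟨κ * PR l c, ⟨κ, hκ, _, ⟨c, fun α _ => hc α, rfl⟩, rfl⟩,
      fun a => (PR l c a)⁻¹ * h' a * (PR l g a)⁻¹, fun a => PR l g a * γ a, ?_, fun a => ?_,
      fun a => mul_mem (PR_mem g hg1 l a) (hγ a), fun a => ?_⟩
    · exact (hA G d).1 _ _ ((hA G d).1 _ _ ((hA G d).2.1 _ hpc) hh'1) ((hA G d).2.1 _ hpg)
    · have m1 : (PR l c a)⁻¹ ∈ L G i := inv_mem (PR_mem c hcL l a)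
      have m2 : (PR l g a)⁻¹ ∈ L G i := inv_mem (PR_mem g hg2 l a)
      rw [← grm_eq_zero (mul_mem (mul_mem m1 (hh'2 a)) m2), grm_mul (mul_mem m1 (hh'2 a)) m2,
        grm_mul m1 (hh'2 a), grm_inv (PR_mem c hcL l a), grm_inv (PR_mem g hg2 l a), hq a]
      abel
    · rw [hfac a, Pi.mul_apply]
      group

theorem fac_all (hA : S_A1) (hP : S_POW) (hT : S_TY) (hB : S_BR) [TopologicalSpace G]
    [IsTopologicalGroup G] (d : ℕ) (Γ : Subgroup G) (hC : ∀ i, Coc Γ i) (i : ℕ) : Fac d Γ i := by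
  induction i with
  | zero => exact fac_zero hA d Γ
  | succ i ih => exact fac_succ hA hP hT hB d Γ i (hC i) ih

/-- **A4 (compactness of `Qs / Λ`)** -/
theorem a4 (hA : S_A1) (hP : S_POW) (hT : S_TY) (hB : S_BR) : S_A4 := by
  intro G _ _ _ d Γ hG hC
  obtain ⟨c, hc⟩ := Subgroup.nilpotent_iff_lowerCentralSeries.1 hG
  obtain ⟨K, hK, hKp, hKf⟩ := fac_all hA hP hT hB d Γ hC c
  have : CompactSpace K := isCompact_iff_compactSpace.1 hK
  let ι : K → Qs d G := fun κ => ⟨⟨κ.1, 0⟩, (mem_Qs hA _).2 (hKp κ.1 κ.2)⟩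
  have hι : Continuous ι := by
    have h1 : Continuous fun κ : K => (⟨κ.1, 0⟩ : QG d G) :=
      continuous_QG (fun a => (continuous_apply a).comp continuous_subtype_val) continuous_const
    exact h1.subtype_mk _
  let F : K → Qs d G ⧸ LamS d Γ := fun κ => QuotientGroup.mk (ι κ)
  have hF : Continuous F := QuotientGroup.continuous_mk.comp hι
  have hFs : Function.Surjective F := by
    intro x
    obtain ⟨⟨q, hq⟩, rfl⟩ := QuotientGroup.mk_surjective x
    obtain ⟨κ, hκ, h', γ, -, hh', hγ, hfac⟩ := hKf q.fn ((mem_Qs hA q).1 hq)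
    refine ⟨⟨κ, hκ⟩, ?_⟩
    refine QuotientGroup.eq.2 ?_
    rw [LamS, Subgroup.mem_subgroupOf]
    intro a
    have h1 : h' a = 1 := by
      have := hh' a
      rw [L, hc, Subgroup.mem_bot] at this
      exact this
    have h2 := hfac a
    rw [h1, mul_one] at h2
    have h3 : ((((ι ⟨κ, hκ⟩)⁻¹ * ⟨q, hq⟩ : Qs d G) : QG d G)).fn a = (κ a)⁻¹ * q.fn a := by
      simp only [Subgroup.coe_mul, Subgroup.coe_inv, mul_fn, inv_fn, inv_sf, ι, neg_zero,
        sh_zero_left]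
    rw [h3, h2]
    simpa using hγ a
  exact hFs.compactSpace hF

end Pool.Agent.Q114.NP
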